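import Mathlib

set_option autoImplicit false

/-! # The down-set inequality

For a finite down-closed set `S` of exponents, of weight `∑ (k v + 1) w v ≤ T`, and `M ρ ≤ T`:
`#S ≤ T ^ M / (M! ρ ^ M) * #{k ∈ S, k v * w v < ρ for all v}`.  The piecewise linear map
`x ↦ (ρ / T) ∑ j, min (x i) (x j)` maps the union of the cells of `S` into its part in the cube
`[0, ρ)`, with constant Jacobian `M! (ρ / T) ^ M`.  (Inequality found by helper21.) -/

namespace Pool.Agent.H48.DS

open MeasureTheory Set

variable {M : ℕ}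

/-- The matrix of `y ↦ ∑ j, min (y i) (y j)` for increasing `y`. -/
def mat (M : ℕ) : Matrix (Fin M) (Fin M) ℝ := fun i j =>
  if j < i then 1 else if j = i then ((M - (i : ℕ) : ℕ) : ℝ) else 0

private lemma det_mat : (mat M).det = (M.factorial : ℝ) := by
  have h : (mat M).BlockTriangular OrderDual.toDual := by
    intro i j hij
    have h1 : i < j := hij
    simp only [mat]
    rw [if_neg (not_lt.2 h1.le), if_neg h1.ne']
  rw [Matrix.det_of_isLowerTriangular _ h]
  have h2 : ∀ i : Fin M, mat M i i = ((M - (i : ℕ) : ℕ) : ℝ) := by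
    intro i
    simp [mat]
  rw [Finset.prod_congr rfl fun i _ => h2 i]
  rw [Fin.prod_univ_eq_prod_range (fun i => ((M - i : ℕ) : ℝ)) M, ← Nat.cast_prod]
  congr 1
  rw [← Finset.prod_range_add_one_eq_factorial, ← Finset.prod_range_reflect]
  refine Finset.prod_congr rfl fun i hi => ?_
  have := Finset.mem_range.1 hi
  omega

private lemma mat_sum {y : Fin M → ℝ} (hy : Monotone y) (i : Fin M) :
    ∑ j, mat M i j * y j = ∑ j, min (y i) (y j) := by
  have h1 : ∀ j, min (y i) (y j) = (if j < i then y j else 0) + (if j < i then 0 else y i) := by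
    intro j
    by_cases h : j < i
    · rw [if_pos h, if_pos h, add_zero, min_eq_right (hy h.le)]
    · rw [if_neg h, if_neg h, zero_add, min_eq_left (hy (not_lt.1 h))]
  have h2 : ∀ j, mat M i j * y j =
      (if j < i then y j else 0) + (if j = i then ((M - (i : ℕ) : ℕ) : ℝ) * y i else 0) := by
    intro j
    simp only [mat]
    by_cases h : j < i
    · rw [if_pos h, if_pos h, if_neg h.ne, one_mul, add_zero]
    · rw [if_neg h, if_neg h, zero_add]
      by_cases h3 : j = i
      · rw [if_pos h3, if_pos h3, h3]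
      · rw [if_neg h3, if_neg h3, zero_mul]
  rw [Finset.sum_congr rfl fun j _ => h1 j, Finset.sum_congr rfl fun j _ => h2 j,
    Finset.sum_add_distrib, Finset.sum_add_distrib]
  congr 1
  rw [Finset.sum_ite_eq' Finset.univ i, if_pos (Finset.mem_univ i)]
  have h3 : ∀ j, (if j < i then (0 : ℝ) else y i) = if i ≤ j then y i else 0 := by
    intro j
    by_cases h : j < i
    · rw [if_pos h, if_neg (not_le.2 h)]
    · rw [if_neg h, if_pos (not_lt.1 h)]
  rw [Finset.sum_congr rfl fun j _ => h3 j, ← Finset.sum_filter, Finset.sum_const, nsmul_eq_mul]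
  congr 2
  have h4 : Finset.univ.filter (fun j => i ≤ j) = Finset.Ici i := by
    ext j; simp
  rw [h4, Fin.card_Ici]

/-- The chamber of a permutation. -/
def cham (σ : Equiv.Perm (Fin M)) : Set (Fin M → ℝ) := {x | σ = Tuple.sort x}

private lemma meas_cham (σ : Equiv.Perm (Fin M)) : MeasurableSet (cham σ) := by
  have h : cham σ = (⋂ i, ⋂ j, {x : Fin M → ℝ | i ≤ j → x (σ i) ≤ x (σ j)}) ∩
      (⋂ i, ⋂ j, {x : Fin M → ℝ | i < j → x (σ i) = x (σ j) → σ i < σ j}) := by
    ext x
    simp only [cham, mem_ofPred_eq, Tuple.eq_sort_iff, mem_inter_iff, mem_iInter]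
    constructor
    · rintro ⟨h1, h2⟩
      exact ⟨fun i j hij => h1 hij, h2⟩
    · rintro ⟨h1, h2⟩
      exact ⟨fun i j hij => h1 i j hij, h2⟩
  rw [h]
  refine MeasurableSet.inter (MeasurableSet.iInter fun i => MeasurableSet.iInter fun j => ?_)
    (MeasurableSet.iInter fun i => MeasurableSet.iInter fun j => ?_)
  · by_cases hij : i ≤ j
    · have : {x : Fin M → ℝ | i ≤ j → x (σ i) ≤ x (σ j)} = {x | x (σ i) ≤ x (σ j)} := by
        ext x; simp [hij]
      rw [this]
      exact measurableSet_le (measurable_pi_apply (σ i)) (measurable_pi_apply (σ j))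
    · have : {x : Fin M → ℝ | i ≤ j → x (σ i) ≤ x (σ j)} = univ := by
        ext x; simp [hij]
      rw [this]
      exact MeasurableSet.univ
  · by_cases hij : i < j ∧ ¬ σ i < σ j
    · have : {x : Fin M → ℝ | i < j → x (σ i) = x (σ j) → σ i < σ j} =
          {x | x (σ i) = x (σ j)}ᶜ := by
        ext x
        simp only [mem_ofPred_eq, mem_compl_iff]
        constructor
        · intro h1 h2
          exact hij.2 (h1 hij.1 h2)
        · intro h1 _ h2
          exact absurd h2 h1
      rw [this]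
      exact (measurableSet_eq_fun (measurable_pi_apply (σ i)) (measurable_pi_apply (σ j))).compl
    · have : {x : Fin M → ℝ | i < j → x (σ i) = x (σ j) → σ i < σ j} = univ := by
        ext x
        simp only [mem_ofPred_eq, mem_univ, iff_true]
        intro h1 _
        by_contra h2
        exact hij ⟨h1, h2⟩
      rw [this]
      exact MeasurableSet.univ

/-- The map `x ↦ c ∑ j, min (x i) (x j)`. -/
def phi (c : ℝ) (x : Fin M → ℝ) : Fin M → ℝ := fun i => c * ∑ j, min (x i) (x j)

private lemma phi_mono {c : ℝ} (hc : 0 < c) {x : Fin M → ℝ} {a b : Fin M} (h : x a ≤ x b) :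
    phi c x a ≤ phi c x b :=
  mul_le_mul_of_nonneg_left (Finset.sum_le_sum fun j _ => min_le_min_right _ h) hc.le

private lemma phi_strict {c : ℝ} (hc : 0 < c) {x : Fin M → ℝ} {a b : Fin M} (h : x a < x b) :
    phi c x a < phi c x b := by
  refine mul_lt_mul_of_pos_left (Finset.sum_lt_sum (fun j _ => min_le_min_right _ h.le)
    ⟨b, Finset.mem_univ b, ?_⟩) hc
  rw [min_self, min_eq_left h.le]
  exact h

private lemma phi_cham {c : ℝ} (hc : 0 < c) {σ : Equiv.Perm (Fin M)} {x : Fin M → ℝ}
    (hx : x ∈ cham σ) : phi c x ∈ cham σ := by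
  simp only [cham, mem_ofPred_eq, Tuple.eq_sort_iff] at hx ⊢
  refine ⟨fun i j hij => phi_mono hc (hx.1 hij), fun i j hij he => hx.2 i j hij ?_⟩
  have h1 : x (σ i) ≤ x (σ j) := hx.1 hij.le
  rcases h1.lt_or_eq with h2 | h2
  · exact absurd he (phi_strict hc h2).ne
  · exact h2

private lemma phi_eq {c : ℝ} {σ : Equiv.Perm (Fin M)} {x : Fin M → ℝ} (hx : x ∈ cham σ) :
    Matrix.toLin' (c • (mat M).submatrix σ.symm σ.symm) x = phi c x := by
  have hm : Monotone (x ∘ σ) := by
    have hx' := hx
    simp only [cham, mem_ofPred_eq, Tuple.eq_sort_iff] at hx'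
    exact hx'.1
  funext k
  rw [Matrix.toLin'_apply, Matrix.smul_mulVec, Pi.smul_apply, smul_eq_mul]
  simp only [phi]
  congr 1
  have h1 : ((mat M).submatrix σ.symm σ.symm).mulVec x k =
      ∑ j, mat M (σ.symm k) (σ.symm j) * x j := rfl
  rw [h1, ← Equiv.sum_comp σ, ← Equiv.sum_comp σ (fun j => min (x k) (x j))]
  have h2 := mat_sum hm (σ.symm k)
  simp only [Function.comp, Equiv.apply_symm_apply] at h2
  simp only [Equiv.symm_apply_apply]
  exact h2

private lemma det_eq {c : ℝ} (σ : Equiv.Perm (Fin M)) :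
    LinearMap.det (Matrix.toLin' (c • (mat M).submatrix σ.symm σ.symm)) =
      c ^ M * (M.factorial : ℝ) := by
  rw [LinearMap.det_toLin', Matrix.det_smul, Fintype.card_fin, Matrix.det_submatrix_equiv_self,
    det_mat]

/-- The real down-set inequality. -/
theorem downset_vol {c : ℝ} (hc : 0 < c) {A B : Set (Fin M → ℝ)} (hB : MeasurableSet B)
    (hAB : ∀ x ∈ A, phi c x ∈ B) :
    ENNReal.ofReal (c ^ M * (M.factorial : ℝ)) * volume A ≤ volume B := by
  have h1 : volume A ≤ ∑ σ : Equiv.Perm (Fin M), volume (A ∩ cham σ) := by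
    calc volume A ≤ volume (⋃ σ ∈ (Finset.univ : Finset (Equiv.Perm (Fin M))), A ∩ cham σ) := by
          refine measure_mono fun x hx => ?_
          simp only [mem_iUnion, Finset.mem_univ, exists_prop, true_and]
          exact ⟨Tuple.sort x, hx, rfl⟩
      _ ≤ _ := measure_biUnion_finset_le _ _
  have h2 : ∀ σ : Equiv.Perm (Fin M),
      ENNReal.ofReal (c ^ M * (M.factorial : ℝ)) * volume (A ∩ cham σ) ≤ volume (B ∩ cham σ) := by
    intro σ
    have h3 := Measure.addHaar_image_linearMap (volume : Measure (Fin M → ℝ))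
      (Matrix.toLin' (c • (mat M).submatrix σ.symm σ.symm)) (A ∩ cham σ)
    rw [det_eq, abs_of_nonneg (by positivity)] at h3
    rw [← h3]
    refine measure_mono ?_
    rintro _ ⟨x, ⟨hxA, hxσ⟩, rfl⟩
    rw [phi_eq hxσ]
    exact ⟨hAB x hxA, phi_cham hc hxσ⟩
  calc ENNReal.ofReal (c ^ M * (M.factorial : ℝ)) * volume A
      ≤ ENNReal.ofReal (c ^ M * (M.factorial : ℝ)) *
        ∑ σ : Equiv.Perm (Fin M), volume (A ∩ cham σ) := by gcongr
    _ = ∑ σ : Equiv.Perm (Fin M),
        ENNReal.ofReal (c ^ M * (M.factorial : ℝ)) * volume (A ∩ cham σ) := by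
        rw [Finset.mul_sum]
    _ ≤ ∑ σ : Equiv.Perm (Fin M), volume (B ∩ cham σ) := Finset.sum_le_sum fun σ _ => h2 σ
    _ = volume (⋃ σ ∈ (Finset.univ : Finset (Equiv.Perm (Fin M))), B ∩ cham σ) := by
        rw [measure_biUnion_finset]
        · intro σ _ τ _ hne
          refine Set.disjoint_left.2 ?_
          rintro x ⟨_, hx⟩ ⟨_, hx'⟩
          exact hne (hx.trans hx'.symm)
        · intro σ _
          exact hB.inter (meas_cham σ)
    _ ≤ volume B := by
        refine measure_mono fun x hx => ?_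
        simp only [mem_iUnion, Finset.mem_univ, exists_prop, true_and] at hx
        exact hx.choose_spec.1

/-- The cell of an exponent. -/
def cell (w : Fin M → ℝ) (k : Fin M → ℕ) : Set (Fin M → ℝ) :=
  Set.pi univ fun v => Ico ((k v : ℝ) * w v) (((k v : ℝ) + 1) * w v)

private lemma meas_cell (w : Fin M → ℝ) (k : Fin M → ℕ) : MeasurableSet (cell w k) :=
  MeasurableSet.univ_pi fun _ => measurableSet_Ico

private lemma vol_cell {w : Fin M → ℝ} (hw : ∀ v, 0 < w v) (k : Fin M → ℕ) :
    volume (cell w k) = ENNReal.ofReal (∏ v, w v) := by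
  rw [cell, Real.volume_pi_Ico, ENNReal.ofReal_prod_of_nonneg fun v _ => (hw v).le]
  refine Finset.prod_congr rfl fun v _ => ?_
  congr 1
  ring

private lemma cell_disj {w : Fin M → ℝ} (hw : ∀ v, 0 < w v) {k k' : Fin M → ℕ} {x : Fin M → ℝ}
    (h : x ∈ cell w k) (h' : x ∈ cell w k') : k = k' := by
  funext v
  have h1 := h v (mem_univ v)
  have h2 := h' v (mem_univ v)
  have h3 : (k v : ℝ) < (k' v : ℝ) + 1 := by
    by_contra hcon
    push Not at hcon
    have := mul_le_mul_of_nonneg_right hcon (hw v).le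
    linarith [h1.1, h2.2]
  have h4 : (k' v : ℝ) < (k v : ℝ) + 1 := by
    by_contra hcon
    push Not at hcon
    have := mul_le_mul_of_nonneg_right hcon (hw v).le
    linarith [h2.1, h1.2]
  have h5 : k v < k' v + 1 := by exact_mod_cast h3
  have h6 : k' v < k v + 1 := by exact_mod_cast h4
  omega

private lemma vol_cells {w : Fin M → ℝ} (hw : ∀ v, 0 < w v) (S : Finset (Fin M → ℕ)) :
    volume (⋃ k ∈ S, cell w k) = ENNReal.ofReal (S.card * ∏ v, w v) := by
  rw [measure_biUnion_finset]
  · rw [Finset.sum_congr rfl fun k _ => vol_cell hw k, Finset.sum_const, nsmul_eq_mul,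
      ENNReal.ofReal_mul (by positivity), ENNReal.ofReal_natCast]
  · intro k _ k' _ hne
    refine Set.disjoint_left.2 fun x hx hx' => hne (cell_disj hw hx hx')
  · intro k _
    exact meas_cell w k

/-- THE DOWN-SET INEQUALITY (discrete form). -/
theorem downset_card (S : Finset (Fin M → ℕ)) (hS : ∀ k ∈ S, ∀ k', k' ≤ k → k' ∈ S)
    (w : Fin M → ℝ) (hw : ∀ v, 0 < w v) (T ρ : ℝ) (hρ : 0 < ρ) (hT : M * ρ ≤ T) (hT0 : 0 < T)
    (hST : ∀ k ∈ S, ∑ v, ((k v : ℝ) + 1) * w v ≤ T) :
    (S.card : ℝ) ≤ T ^ M / (M.factorial * ρ ^ M) *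
      (S.filter fun k => ∀ v, (k v : ℝ) * w v < ρ).card := by
  have hc : 0 < ρ / T := div_pos hρ hT0
  have key := downset_vol (M := M) hc (A := ⋃ k ∈ S, cell w k)
    (B := ⋃ k ∈ S.filter (fun k => ∀ v, (k v : ℝ) * w v < ρ), cell w k)
    (Finset.measurableSet_biUnion _ fun k _ => meas_cell w k) (by
      intro x hx
      simp only [mem_iUnion, exists_prop] at hx
      obtain ⟨k, hkS, hk⟩ := hx
      have hx0 : ∀ v, 0 ≤ x v := fun v =>
        (mul_nonneg (Nat.cast_nonneg _) (hw v).le).trans (hk v (mem_univ v)).1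
      -- the value is nonnegative and at most `x`
      have h0 : ∀ v, 0 ≤ phi (ρ / T) x v := fun v =>
        mul_nonneg hc.le (Finset.sum_nonneg fun j _ => le_min (hx0 v) (hx0 j))
      have h1 : ∀ v, phi (ρ / T) x v ≤ x v := by
        intro v
        have h2 : ∑ j, min (x v) (x j) ≤ M * x v := by
          calc ∑ j, min (x v) (x j) ≤ ∑ _j : Fin M, x v :=
                Finset.sum_le_sum fun j _ => min_le_left _ _
            _ = M * x v := by rw [Finset.sum_const, Finset.card_univ, Fintype.card_fin, nsmul_eq_mul]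
        calc phi (ρ / T) x v ≤ ρ / T * (M * x v) := mul_le_mul_of_nonneg_left h2 hc.le
          _ = (M * ρ / T) * x v := by ring
          _ ≤ 1 * x v := mul_le_mul_of_nonneg_right ((div_le_one hT0).2 hT) (hx0 v)
          _ = x v := one_mul _
      have h3 : ∀ v, phi (ρ / T) x v < ρ := by
        intro v
        have h4 : ∑ j, min (x v) (x j) ≤ ∑ j, x j := Finset.sum_le_sum fun j _ => min_le_right _ _
        have h5 : ∑ j, x j < T := by
          refine lt_of_lt_of_le ?_ (hST k hkS)
          exact Finset.sum_lt_sum_of_nonempty ⟨v, Finset.mem_univ v⟩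
            fun j _ => (hk j (mem_univ j)).2
        calc phi (ρ / T) x v ≤ ρ / T * ∑ j, x j := mul_le_mul_of_nonneg_left h4 hc.le
          _ < ρ / T * T := mul_lt_mul_of_pos_left h5 hc
          _ = ρ := by field_simp
      -- the cell of the value
      set k' : Fin M → ℕ := fun v => ⌊phi (ρ / T) x v / w v⌋₊ with hk'
      have h6 : ∀ v, (k' v : ℝ) * w v ≤ phi (ρ / T) x v := by
        intro v
        have := Nat.floor_le (div_nonneg (h0 v) (hw v).le)
        exact (le_div_iff₀ (hw v)).1 this
      have h7 : ∀ v, phi (ρ / T) x v < ((k' v : ℝ) + 1) * w v := by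
        intro v
        have := Nat.lt_floor_add_one (phi (ρ / T) x v / w v)
        exact (div_lt_iff₀ (hw v)).1 this
      have h8 : k' ≤ k := by
        intro v
        have h9 : (k' v : ℝ) < (k v : ℝ) + 1 := by
          by_contra hcon
          push Not at hcon
          have h10 := mul_le_mul_of_nonneg_right hcon (hw v).le
          have h11 := (hk v (mem_univ v)).2
          linarith [h6 v, h1 v]
        have h10 : k' v < k v + 1 := by exact_mod_cast h9
        exact Nat.lt_succ_iff.1 h10
      simp only [mem_iUnion, exists_prop, Finset.mem_filter]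
      exact ⟨k', ⟨hS k hkS k' h8, fun v => (h6 v).trans_lt (h3 v)⟩, fun v _ => ⟨h6 v, h7 v⟩⟩)
  rw [vol_cells hw, vol_cells hw, ← ENNReal.ofReal_mul (by positivity)] at key
  have hP : 0 < ∏ v, w v := Finset.prod_pos fun v _ => hw v
  have key2 := (ENNReal.ofReal_le_ofReal_iff (by positivity)).1 key
  have hf : (0 : ℝ) < M.factorial := by exact_mod_cast M.factorial_pos
  have key3 : (ρ / T) ^ M * (M.factorial : ℝ) * S.card ≤
      ((S.filter fun k => ∀ v, (k v : ℝ) * w v < ρ).card : ℝ) := by
    have : ((ρ / T) ^ M * (M.factorial : ℝ) * S.card) * ∏ v, w v ≤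
        ((S.filter fun k => ∀ v, (k v : ℝ) * w v < ρ).card : ℝ) * ∏ v, w v := by
      calc _ = (ρ / T) ^ M * (M.factorial : ℝ) * (S.card * ∏ v, w v) := by ring
        _ ≤ _ := key2
    exact le_of_mul_le_mul_right this hP
  have h12 : (S.card : ℝ) = T ^ M / (M.factorial * ρ ^ M) *
      ((ρ / T) ^ M * (M.factorial : ℝ) * S.card) := by
    rw [div_pow]
    field_simp
  rw [h12]
  exact mul_le_mul_of_nonneg_left key3 (by positivity)

end Pool.Agent.H48.DS
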